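import Mathlib

set_option autoImplicit false

namespace Pool.Agent.Results.MP_77df55_co.BridgedCubic

open Finset

/-- The bipartite graph with parts `Fin n` and `Fin n` given by the relation `G` (edges `a b` with
`G a b`, `a` in the first part and `b` in the second part) is `k`-regular. -/
def Regular {n : ℕ} (G : Fin n → Fin n → Prop) (k : ℕ) : Prop :=
  (∀ a, Nat.card {b // G a b} = k) ∧ (∀ b, Nat.card {a // G a b} = k)

/-- A perfect matching of the bipartite graph `G` is a bijection `M` from the first part to the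
second part all of whose pairs `a (M a)` are edges of `G`. -/
def IsPM {n : ℕ} (G : Fin n → Fin n → Prop) (M : Fin n ≃ Fin n) : Prop :=
  ∀ a, G a (M a)

/-- The perfect matching `M` is acceptable for `H`: there are no distinct `a`, `a'` such that
both `a (M a')` and `a' (M a)` are edges of `H`. -/
def Acceptable {n : ℕ} (H : Fin n → Fin n → Prop) (M : Fin n ≃ Fin n) : Prop :=
  ¬ ∃ a a' b b', a ≠ a' ∧ b ≠ b' ∧ M a = b ∧ M a' = b' ∧ H a b' ∧ H a' b

/-- adjacency (as a Boolean) of the cubic graph with a centre `none` and three blocks. -/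
def blk : Fin 5 → Fin 5 → Bool
  | 0, 1 => true | 0, 2 => true | 1, 0 => true | 2, 0 => true
  | 1, 3 => true | 1, 4 => true | 3, 1 => true | 4, 1 => true
  | 2, 3 => true | 2, 4 => true | 3, 2 => true | 4, 2 => true
  | 3, 4 => true | 4, 3 => true
  | _, _ => false

def adj : Option (Fin 3 × Fin 5) → Option (Fin 3 × Fin 5) → Bool
  | none, none => false
  | none, some (_, j) => j == 0
  | some (_, j), none => j == 0
  | some (i, j), some (i', j') => (i == i') && blk j j'

lemma adj_row : ∀ a, (univ.filter (fun b => adj a b = true)).card = 3 := by decide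

lemma adj_symm : ∀ a b, adj a b = adj b a := by decide

lemma adj_irrefl : ∀ a, adj a a = false := by decide

lemma adj_none : ∀ b, adj none b = true → ∃ i, b = some (i, 0) := by decide

lemma adj_out : ∀ (i : Fin 3) (j : Fin 5) b, adj (some (i, j)) b = true → b = none ∧ j = 0 ∨
    ∃ j', b = some (i, j') := by decide

abbrev W (m : ℕ) := Option (Fin 3 × Fin 5) ⊕ ZMod m

def GW (m : ℕ) : W m → W m → Prop
  | Sum.inl a, Sum.inl b => adj a b = true
  | Sum.inr a, Sum.inr b => b = a + 1 ∨ b = a + 2 ∨ b = a + 3
  | _, _ => False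

lemma GW_ll (m : ℕ) (a b : Option (Fin 3 × Fin 5)) : GW m (Sum.inl a) (Sum.inl b) ↔ adj a b = true := Iff.rfl

lemma GW_rr (m : ℕ) (a b : ZMod m) : GW m (Sum.inr a) (Sum.inr b) ↔
    (b = a + 1 ∨ b = a + 2 ∨ b = a + 3) := Iff.rfl

lemma GW_lr (m : ℕ) (a : Option (Fin 3 × Fin 5)) (b : ZMod m) : GW m (Sum.inl a) (Sum.inr b) ↔ False := Iff.rfl

lemma GW_rl (m : ℕ) (a : ZMod m) (b : Option (Fin 3 × Fin 5)) : GW m (Sum.inr a) (Sum.inl b) ↔ False := Iff.rfl

lemma circ_distinct (m : ℕ) (hm : 4 ≤ m) : (1 : ZMod m) ≠ 0 ∧ (2 : ZMod m) ≠ 0 ∧ (3 : ZMod m) ≠ 0 := by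
  have key : ∀ k : ℕ, 0 < k → k < m → ((k : ℕ) : ZMod m) ≠ 0 := by
    intro k hk hkm h
    rw [ZMod.natCast_eq_zero_iff] at h
    exact absurd (Nat.le_of_dvd hk h) (by omega)
  refine ⟨?_, ?_, ?_⟩
  · have := key 1 (by omega) (by omega); simpa using this
  · have := key 2 (by omega) (by omega); simpa using this
  · have := key 3 (by omega) (by omega); simpa using this

lemma card_three {α : Type*} [DecidableEq α] {x y z : α} (h1 : x ≠ y) (h2 : x ≠ z) (h3 : y ≠ z) :
    ({x, y, z} : Finset α).card = 3 := by
  rw [Finset.card_eq_three]; exact ⟨x, y, z, h1, h2, h3, rfl⟩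

lemma row (m : ℕ) (hm : 4 ≤ m) (a : W m) : Nat.card {b // GW m a b} = 3 := by
  have : NeZero m := ⟨by omega⟩
  classical
  obtain ⟨h1, h2, h3⟩ := circ_distinct m hm
  rw [Nat.card_eq_fintype_card, Fintype.card_subtype]
  rcases a with a | a
  · have : (univ.filter (fun b : W m => GW m (Sum.inl a) b)) =
        (univ.filter (fun b => adj a b = true)).map Function.Embedding.inl := by
      ext b
      rcases b with b | b <;> simp [GW_ll, GW_lr, GW_rl]
    rw [this, Finset.card_map, adj_row]
  · have : (univ.filter (fun b : W m => GW m (Sum.inr a) b)) =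
        ({a + 1, a + 2, a + 3} : Finset (ZMod m)).map Function.Embedding.inr := by
      ext b
      rcases b with b | b
      · simp [GW_ll, GW_lr, GW_rl]
      · simp only [Finset.mem_filter, Finset.mem_univ, true_and, GW_rr, Finset.mem_map,
          Finset.mem_insert, Finset.mem_singleton, Function.Embedding.inr_apply, Sum.inr.injEq,
          exists_eq_right]
    rw [this, Finset.card_map]
    apply card_three
    · intro h
      apply h1
      linear_combination -h
    · intro h
      apply h2
      linear_combination -h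
    · intro h
      apply h1
      linear_combination -h

lemma col (m : ℕ) (hm : 4 ≤ m) (b : W m) : Nat.card {a // GW m a b} = 3 := by
  have : NeZero m := ⟨by omega⟩
  classical
  obtain ⟨h1, h2, h3⟩ := circ_distinct m hm
  rw [Nat.card_eq_fintype_card, Fintype.card_subtype]
  rcases b with b | b
  · have : (univ.filter (fun a : W m => GW m a (Sum.inl b))) =
        (univ.filter (fun a => adj b a = true)).map Function.Embedding.inl := by
      ext a
      rcases a with a | a
      · simp [GW_ll, adj_symm a b]
      · simp [GW_ll, GW_lr, GW_rl]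
    rw [this, Finset.card_map, adj_row]
  · have : (univ.filter (fun a : W m => GW m a (Sum.inr b))) =
        ({b - 1, b - 2, b - 3} : Finset (ZMod m)).map Function.Embedding.inr := by
      ext a
      rcases a with a | a
      · simp [GW_ll, GW_lr, GW_rl]
      · simp only [Finset.mem_filter, Finset.mem_univ, true_and, GW_rr, Finset.mem_map,
          Finset.mem_insert, Finset.mem_singleton, Function.Embedding.inr_apply, Sum.inr.injEq,
          exists_eq_right]
        constructor
        · rintro (h | h | h) <;> subst h <;> simp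
        · rintro (h | h | h) <;> subst h <;> simp
    rw [this, Finset.card_map]
    apply card_three
    · intro h
      apply h1
      linear_combination h
    · intro h
      apply h2
      linear_combination h
    · intro h
      apply h1
      linear_combination h

lemma irr (m : ℕ) (hm : 4 ≤ m) (a : W m) : ¬ GW m a a := by
  obtain ⟨h1, h2, h3⟩ := circ_distinct m hm
  rcases a with a | a
  · simp [GW_ll, adj_irrefl]
  · simp [GW_rr, h1, h2, h3]

/-- every permutation moving along the arcs has a 2-cycle. -/
lemma two_cycle (m : ℕ) (σ : W m ≃ W m) (h : ∀ a, GW m a (σ a)) :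
    ∃ a, σ (σ a) = a ∧ σ a ≠ a := by
  classical
  have h0 := h (Sum.inl none)
  rcases hc : σ (Sum.inl none) with b | b
  · rw [hc] at h0
    obtain ⟨i, rfl⟩ := adj_none b h0
    refine ⟨Sum.inl none, ?_, by rw [hc]; simp⟩
    rw [hc]
    by_contra hne
    -- block i is mapped to itself
    let S : Finset (W m) := univ.image (fun j : Fin 5 => (Sum.inl (some (i, j)) : W m))
    have hS : ∀ v ∈ S, σ v ∈ S := by
      intro v hv
      rw [Finset.mem_image] at hv
      obtain ⟨j, -, rfl⟩ := hv
      have h1 := h (Sum.inl (some (i, j)))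
      rcases h2 : σ (Sum.inl (some (i, j))) with b | b
      · rw [h2] at h1
        rcases adj_out i j b h1 with ⟨rfl, rfl⟩ | ⟨j', rfl⟩
        · exact absurd h2 hne
        · rw [Finset.mem_image]
          exact ⟨j', mem_univ _, rfl⟩
      · rw [h2] at h1
        exact absurd h1 (by simp [GW_ll, GW_lr, GW_rl])
    have hSS : S.image σ = S := by
      apply Finset.eq_of_subset_of_card_le
      · intro v hv
        rw [Finset.mem_image] at hv
        obtain ⟨u, hu, rfl⟩ := hv
        exact hS u hu
      · rw [Finset.card_image_of_injective _ σ.injective]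
    have hx : (Sum.inl (some (i, 0)) : W m) ∈ S := by
      rw [Finset.mem_image]
      exact ⟨0, mem_univ _, rfl⟩
    rw [← hSS, Finset.mem_image] at hx
    obtain ⟨u, hu, hu2⟩ := hx
    rw [← hc] at hu2
    have := σ.injective hu2
    subst this
    rw [Finset.mem_image] at hu
    obtain ⟨j, -, hj⟩ := hu
    exact absurd (Sum.inl.inj hj) (by simp)
  · rw [hc] at h0
    exact absurd h0 (by simp [GW_ll, GW_lr, GW_rl])

/-- For every `n ≥ 20` there are a 3-regular bipartite graph `G` and an edge-disjoint 1-regular
bipartite graph `H` on the same two parts of size `n` such that no perfect matching of `G` is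
acceptable for `H`. -/
theorem result : ∀ n : ℕ, 20 ≤ n → ∃ G H : Fin n → Fin n → Prop,
    Regular G 3 ∧ Regular H 1 ∧ (∀ a b, ¬ (G a b ∧ H a b)) ∧
    ∀ M : Fin n ≃ Fin n, IsPM G M → ¬ Acceptable H M := by
  intro n hn
  have hm : 4 ≤ n - 16 := by omega
  have : NeZero (n - 16) := ⟨by omega⟩
  have hcard : Fintype.card (W (n - 16)) = n := by
    simp only [Fintype.card_sum, Fintype.card_option, Fintype.card_prod, Fintype.card_fin,
      ZMod.card]
    omega
  let E : W (n - 16) ≃ Fin n := Fintype.equivFinOfCardEq hcard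
  refine ⟨fun a b => GW (n - 16) (E.symm a) (E.symm b), fun a b => a = b, ⟨?_, ?_⟩, ⟨?_, ?_⟩, ?_, ?_⟩
  · intro a
    rw [← row (n - 16) hm (E.symm a)]
    exact Nat.card_congr (E.symm.subtypeEquiv (fun b => Iff.rfl))
  · intro b
    rw [← col (n - 16) hm (E.symm b)]
    exact Nat.card_congr (E.symm.subtypeEquiv (fun b => Iff.rfl))
  · intro a
    rw [Nat.card_eq_one_iff_unique]
    exact ⟨⟨fun x y => Subtype.ext (x.2.symm.trans y.2)⟩, ⟨⟨a, rfl⟩⟩⟩
  · intro a
    rw [Nat.card_eq_one_iff_unique]
    exact ⟨⟨fun x y => Subtype.ext (x.2.trans y.2.symm)⟩, ⟨⟨a, rfl⟩⟩⟩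
  · rintro a b ⟨h1, h2⟩
    subst h2
    exact irr (n - 16) hm _ h1
  · intro M hM hacc
    obtain ⟨a, h1, h2⟩ := two_cycle (n - 16) ((E.trans M).trans E.symm) (fun a => by
      have := hM (E a)
      simpa using this)
    apply hacc
    have h1' : M (M (E a)) = E a := by
      have := congrArg E h1
      simpa using this
    have h2' : M (E a) ≠ E a := by
      intro h
      apply h2
      simp [h]
    exact ⟨E a, M (E a), M (E a), E a, fun h => h2' h.symm, h2', rfl, h1', rfl, rfl⟩

end Pool.Agent.Results.MP_77df55_co.BridgedCubic
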